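import Pool.Agent.K3h48.PS.PA

namespace K3h48.PS

open Set Topology

universe u v

/-- Auxiliary packets. -/
structure Packet (L : Type u) (Y : Type v) (I : Type) where
  i : I
  x : L
  y : L
  Q : Set Y

/-- The support of a packet. -/
def Packet.supp {L : Type u} {Y : Type v} {I : Type} (f : L → Y) (p : Packet L Y I) : Set Y :=
  {f p.x, f p.y} ∪ p.Q

/-- Admissible packets. -/
structure Packet.Good {L : Type u} {Y : Type v} {I : Type} [LinearOrder L] [TopologicalSpace Y]
    (f : L → Y) (a b : I → L) (p : Packet L Y I) : Prop where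
  hx : p.x ∈ Icc (a p.i) (b p.i)
  hy : p.y ∈ Icc (a p.i) (b p.i)
  hQ : p.Q.Countable
  hxy : f p.x ≠ f p.y
  hxQ : f p.x ∉ p.Q
  hyQ : f p.y ∉ p.Q
  hxc : f p.x ∈ closure p.Q
  hyc : f p.y ∈ closure p.Q

theorem key (hLP : t_LP.{v, max u v}) (hLEM : t_LEM.{u, v})
    (L : Type u) [LinearOrder L] [TopologicalSpace L] [OrderTopology L]
    [CompactSpace L] [PreconnectedSpace L]
    (Y : Type v) [TopologicalSpace Y] [CompactSpace Y] [T2Space Y]
    (hY : ∀ S : Set Y, IsPSpace S) (f : L → Y) (hf : Continuous f)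
    (I : Type) (a b : I → L) (hI : Uncountable I) (hab : ∀ i, a i ≤ b i)
    (hfab : ∀ i, f (a i) ≠ f (b i))
    (hpc : ∀ e : L, {i | e ∈ Icc (a i) (b i)}.Countable) : False := by
  classical
  let r : Packet L Y I → Packet L Y I → Prop := fun p q =>
    p.i ≠ q.i ∧ Disjoint (p.supp f) (q.supp f)
  let 𝒮 : Set (Set (Packet L Y I)) := {P | (∀ p ∈ P, p.Good f a b) ∧ P.Pairwise r}
  obtain ⟨P, hP⟩ := zorn_subset 𝒮 (by
    intro c hc hchain
    refine ⟨⋃₀ c, ⟨?_, ?_⟩, fun s hs => subset_sUnion_of_mem hs⟩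
    · rintro p ⟨s, hs, hps⟩
      exact (hc hs).1 p hps
    · exact (Set.pairwise_sUnion hchain.directedOn).2 (fun s hs => (hc hs).2))
  have hgood : ∀ p ∈ P, p.Good f a b := hP.prop.1
  have hpw : P.Pairwise r := hP.prop.2
  -- `P` is uncountable
  have hunc : ¬ P.Countable := by
    intro hcount
    have hE : (⋃ p ∈ P, p.supp f).Countable := by
      refine hcount.biUnion (fun p hp => ?_)
      exact ((Set.countable_singleton _).insert _).union (hgood p hp).hQ
    have hused : (Packet.i '' P).Countable := hcount.image _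
    have hi : ∃ i : I, i ∉ Packet.i '' P := by
      by_contra h
      push Not at h
      have h1 : Packet.i '' P = univ := eq_univ_of_forall h
      rw [h1] at hused
      exact not_countable (Set.countable_univ_iff.1 hused)
    obtain ⟨i, hi⟩ := hi
    obtain ⟨x, hx, y, hy, Q, hQ, hxy, hxQ, hyQ, hxE, hyE, hQE, hxc, hyc⟩ :=
      hLEM L Y f hf (a i) (b i) (hab i) (hfab i) _ hE
    let p₀ : Packet L Y I := ⟨i, x, y, Q⟩
    have hdisj : Disjoint (p₀.supp f) (⋃ p ∈ P, p.supp f) := by
      rw [Packet.supp, Set.disjoint_union_left]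
      refine ⟨?_, hQE⟩
      rw [Set.disjoint_left]
      rintro w (hw | hw)
      · rw [hw]; exact hxE
      · rw [mem_singleton_iff.1 hw]; exact hyE
    have hd : ∀ q ∈ P, Disjoint (p₀.supp f) (q.supp f) := fun q hq =>
      hdisj.mono_right (subset_biUnion_of_mem (u := fun p => Packet.supp f p) hq)
    have hmem : insert p₀ P ∈ 𝒮 := by
      constructor
      · rintro p (hp | hp)
        · rw [hp]
          exact ⟨hx, hy, hQ, hxy, hxQ, hyQ, hxc, hyc⟩
        · exact hgood p hp
      · rintro p (hp | hp) q (hq | hq) hne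
        · exact absurd (hp.trans hq.symm) hne
        · rw [hp]
          exact ⟨fun h => hi ⟨q, hq, h.symm⟩, hd q hq⟩
        · rw [hq]
          exact ⟨fun h => hi ⟨p, hp, h⟩, (hd p hp).symm⟩
        · exact hpw hp hq hne
    have h2 := hP.le_of_ge hmem (subset_insert _ _)
    exact hi ⟨p₀, h2 (mem_insert _ _), rfl⟩
  have hmx : ∀ p : Packet L Y I, f p.x ∈ p.supp f := fun p => Or.inl (Or.inl rfl)
  have hmy : ∀ p : Packet L Y I, f p.y ∈ p.supp f := fun p => Or.inl (Or.inr rfl)
  have hmQ : ∀ p : Packet L Y I, p.Q ⊆ p.supp f := fun p => subset_union_right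
  -- different packets have disjoint supports
  have hsupp : ∀ p q : P, ∀ w, w ∈ p.1.supp f → w ∈ q.1.supp f → p = q := by
    intro p q w hp hq
    by_contra h
    have := hpw p.2 q.2 (fun e => h (Subtype.ext e))
    exact Set.disjoint_left.1 this.2 hp hq
  refine pa hLP Y hY P ?_ (fun p => f p.1.x) (fun p => f p.1.y) ?_ ?_ ?_ ?_
  · by_contra h
    rw [not_uncountable_iff] at h
    exact hunc (Set.countable_coe_iff.1 h)
  · rw [Set.disjoint_left]
    rintro w ⟨p, rfl⟩ ⟨q, hq⟩
    have hq' : f q.1.y = f p.1.x := hq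
    have h1 : p = q := hsupp p q (f p.1.x) (hmx p.1) (hq' ▸ hmy q.1)
    subst h1
    exact (hgood p.1 p.2).hxy hq'.symm
  · intro p
    refine closure_mono ?_ (hgood p.1 p.2).hxc
    rintro w hw ⟨q, hq⟩
    have hq' : f q.1.x = w := hq
    have h1 : p = q := hsupp p q w (hmQ p.1 hw) (hq' ▸ hmx q.1)
    subst h1
    exact (hgood p.1 p.2).hxQ (hq' ▸ hw)
  · intro p
    refine closure_mono ?_ (hgood p.1 p.2).hyc
    rintro w hw ⟨q, hq⟩
    have hq' : f q.1.y = w := hq
    have h1 : p = q := hsupp p q w (hmQ p.1 hw) (hq' ▸ hmy q.1)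
    subst h1
    exact (hgood p.1 p.2).hyQ (hq' ▸ hw)
  · intro P' hP'
    have hinj : Function.Injective (fun p : P => p.1.i) := by
      intro p q hpq
      by_contra h
      exact (hpw p.2 q.2 (fun e => h (Subtype.ext e))).1 hpq
    have hI' : ¬ ((fun p : P => p.1.i) '' P').Countable := by
      intro h
      exact hP' (Set.countable_of_injective_of_countable_image hinj.injOn h)
    obtain ⟨c, hc⟩ := cluster L I a b hab hpc _ hI'
    refine ⟨f c, ?_⟩
    intro O hO hcO
    obtain ⟨i, ⟨p, hp, hpi⟩, hsub⟩ := hc (f ⁻¹' O) (hO.preimage hf) hcO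
    refine ⟨p, hp, ?_, ?_⟩
    · have h1 := (hgood p.1 p.2).hx
      have h2 : p.1.i = i := hpi
      rw [h2] at h1
      exact hsub h1
    · have h1 := (hgood p.1 p.2).hy
      have h2 : p.1.i = i := hpi
      rw [h2] at h1
      exact hsub h1

end K3h48.PS
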