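import Pool.Agent.K3h48.PS.Stm

namespace K3h48.PS

open Set Topology

universe u v

theorem lp : t_LP.{u, v} := by
  intro Y _ _ _ S hS I z b hz hb hbS
  classical
  obtain ⟨γ, hopen, hcov, hint⟩ := hS
  have hsub : Continuous (Subtype.val : S → Y) := continuous_subtype_val
  let h : StoneCech S → Y := stoneCechExtend hsub
  have hcont : Continuous h := continuous_stoneCechExtend hsub
  have hunit : ∀ s : S, h (stoneCechUnit s) = s := fun s =>
    congrFun (stoneCechExtend_extends hsub) s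
  have F1 : closure S ⊆ range h := by
    refine closure_minimal ?_ (isCompact_range hcont).isClosed
    intro s hs
    exact ⟨stoneCechUnit ⟨s, hs⟩, hunit ⟨s, hs⟩⟩
  have F2 : ∀ (w : StoneCech S) (s : S), h w = s → w = stoneCechUnit s := by
    intro w s hws
    by_contra hne
    obtain ⟨U, V, hU, hV, hwU, hsV, hUV⟩ := t2_separation hne
    have h1 : IsOpen ((stoneCechUnit : S → StoneCech S) ⁻¹' V) :=
      hV.preimage continuous_stoneCechUnit
    obtain ⟨O, hO, hOV⟩ := isOpen_induced_iff.1 h1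
    have hsO : (s : Y) ∈ O := by
      have : s ∈ (Subtype.val : S → Y) ⁻¹' O := by rw [hOV]; exact hsV
      exact this
    have h2 : IsOpen (h ⁻¹' O ∩ U) := (hO.preimage hcont).inter hU
    have h3 : w ∈ h ⁻¹' O ∩ U := ⟨by show h w ∈ O; rw [hws]; exact hsO, hwU⟩
    obtain ⟨s', hs'⟩ := denseRange_stoneCechUnit.exists_mem_open h2 ⟨w, h3⟩
    have h4 : (s' : Y) ∈ O := by
      have := hs'.1
      rwa [mem_preimage, hunit] at this
    have h5 : s' ∈ (stoneCechUnit : S → StoneCech S) ⁻¹' V := by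
      rw [← hOV]; exact h4
    exact Set.disjoint_left.1 hUV hs'.2 h5
  -- the choice of `N`
  have hN : ∀ i, ∃ n, ∀ G ∈ γ n, stoneCechUnit (⟨z i, hz i⟩ : S) ∈ G → ¬ h ⁻¹' {b i} ⊆ G := by
    intro i
    by_contra hcon
    push Not at hcon
    obtain ⟨w, hw⟩ := F1 (hb i)
    have h1 : w ∈ ⋂ n, ⋃₀ {G | G ∈ γ n ∧ stoneCechUnit (⟨z i, hz i⟩ : S) ∈ G} := by
      refine mem_iInter.2 (fun n => ?_)
      obtain ⟨G, hG, hzG, hsubG⟩ := hcon n
      exact ⟨G, ⟨hG, hzG⟩, hsubG hw⟩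
    obtain ⟨s, hs⟩ := hint _ h1
    refine hbS i ?_
    rw [← hw, ← hs, hunit]
    exact s.2
  choose N hN using hN
  refine ⟨N, ?_⟩
  intro n c hc
  obtain ⟨G, hG, hcG⟩ := hcov n ⟨c, hc⟩
  have hclosed : IsClosed (h '' Gᶜ) :=
    ((hopen n G hG).isClosed_compl.isCompact.image hcont).isClosed
  refine ⟨(h '' Gᶜ)ᶜ, hclosed.isOpen_compl, ?_, ?_⟩
  · rintro ⟨w, hwG, hwc⟩
    have := F2 w ⟨c, hc⟩ hwc
    rw [this] at hwG
    exact hwG hcG
  · rintro i hi ⟨hz1, hb1⟩
    subst hi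
    refine hN i G hG ?_ ?_
    · by_contra hno
      exact hz1 ⟨_, hno, hunit _⟩
    · intro w hw
      by_contra hno
      exact hb1 ⟨w, hno, hw⟩

end K3h48.PS
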