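import Pool.Agent.K3h48.PS.Stm

namespace K3h48.PS

open Set Topology

universe u v

/-- A compact Hausdorff space with a countable network of closed sets is metrizable. -/
theorem met : t_MET.{v} := by
  intro Y _ _ _ 𝓕 hc hcl hnet
  classical
  -- Urysohn functions for disjoint pairs
  have hU : ∀ p : 𝓕 × 𝓕, ∃ g : C(Y, ℝ), Disjoint (p.1 : Set Y) (p.2 : Set Y) →
      EqOn g 0 (p.1 : Set Y) ∧ EqOn g 1 (p.2 : Set Y) := by
    intro p
    by_cases hd : Disjoint (p.1 : Set Y) (p.2 : Set Y)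
    · obtain ⟨g, h0, h1, -⟩ := exists_continuous_zero_one_of_isClosed (hcl _ p.1.2) (hcl _ p.2.2) hd
      exact ⟨g, fun _ => ⟨h0, h1⟩⟩
    · exact ⟨0, fun h => absurd h hd⟩
  choose g hg using hU
  have : Countable 𝓕 := hc.to_subtype
  let G : Y → (𝓕 × 𝓕 → ℝ) := fun y p => g p y
  have hG : Continuous G := continuous_pi fun p => (g p).continuous
  have hinj : Function.Injective G := by
    intro y y' hyy
    by_contra hne
    obtain ⟨O, O', hO, hO', hy, hy', hd⟩ := t2_separation hne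
    obtain ⟨F, hF, hyF, hFO⟩ := hnet y O hO hy
    obtain ⟨F', hF', hyF', hFO'⟩ := hnet y' O' hO' hy'
    have hd' : Disjoint F F' := hd.mono hFO hFO'
    have h1 := congrFun hyy (⟨F, hF⟩, ⟨F', hF'⟩)
    have h2 := hg (⟨F, hF⟩, ⟨F', hF'⟩) hd'
    have h3 : g (⟨F, hF⟩, ⟨F', hF'⟩) y = 0 := h2.1 hyF
    have h4 : g (⟨F, hF⟩, ⟨F', hF'⟩) y' = 1 := h2.2 hyF'
    simp only [G] at h1
    rw [h3, h4] at h1
    exact zero_ne_one h1
  have hemb : IsEmbedding G := (hG.isClosedEmbedding hinj).isEmbedding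
  exact hemb.metrizableSpace

end K3h48.PS
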