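import Mathlib

/-!
# MP_250825_gt: hereditary p-spaces that are images of compact connected ordered spaces

Statements of the bricks.
-/

namespace K3h48.PS

open Set Topology

universe u v

/-- p-spaces in the sense of Arhangel'skii. -/
def IsPSpace (X : Type u) [TopologicalSpace X] : Prop :=
  ∃ γ : ℕ → Set (Set (StoneCech X)),
    (∀ n, ∀ G ∈ γ n, IsOpen G) ∧
    (∀ n, ∀ x : X, ∃ G ∈ γ n, stoneCechUnit x ∈ G) ∧
    ∀ x : X, (⋂ n, ⋃₀ {G | G ∈ γ n ∧ stoneCechUnit x ∈ G}) ⊆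
      range (stoneCechUnit : X → StoneCech X)

/-- Brick LP. -/
def t_LP : Prop := ∀ (Y : Type u) [TopologicalSpace Y] [CompactSpace Y] [T2Space Y] (S : Set Y),
  IsPSpace S → ∀ (I : Type v) (z b : I → Y), (∀ i, z i ∈ S) → (∀ i, b i ∈ closure S) →
  (∀ i, b i ∉ S) →
  ∃ N : I → ℕ, ∀ n, ∀ c ∈ S, ∃ O : Set Y, IsOpen O ∧ c ∈ O ∧
    ∀ i, N i = n → ¬ (z i ∈ O ∧ b i ∈ O)

/-- Brick LEM. -/
def t_LEM : Prop := ∀ (L : Type u) [LinearOrder L] [TopologicalSpace L] [OrderTopology L]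
  [CompactSpace L] [PreconnectedSpace L]
  (Y : Type v) [TopologicalSpace Y] [CompactSpace Y] [T2Space Y] (f : L → Y), Continuous f →
  ∀ a b : L, a ≤ b → f a ≠ f b → ∀ E : Set Y, E.Countable →
  ∃ x ∈ Icc a b, ∃ y ∈ Icc a b, ∃ Q : Set Y, Q.Countable ∧ f x ≠ f y ∧
    f x ∉ Q ∧ f y ∉ Q ∧ f x ∉ E ∧ f y ∉ E ∧ Disjoint Q E ∧ f x ∈ closure Q ∧ f y ∈ closure Q

/-- Brick NET. -/
def t_NET : Prop := ∀ (L : Type u) [LinearOrder L] [TopologicalSpace L] [OrderTopology L]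
  [CompactSpace L] [PreconnectedSpace L]
  (Y : Type v) [TopologicalSpace Y] [CompactSpace Y] [T2Space Y] (f : L → Y), Continuous f →
  ∀ (lo hi : L), (∀ x, lo ≤ x) → (∀ x, x ≤ hi) → ∀ D : Set L, lo ∈ D → hi ∈ D →
  (∀ a b : L, a ≤ b → Disjoint (Icc a b) D → f a = f b) →
  ∀ (x : L) (O : Set Y), IsOpen O → f x ∈ O →
    ∃ d ∈ D, ∃ d' ∈ D, d ≤ x ∧ x ≤ d' ∧ Icc d d' ⊆ f ⁻¹' O

/-- Brick MET. -/
def t_MET : Prop := ∀ (Y : Type v) [TopologicalSpace Y] [CompactSpace Y] [T2Space Y]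
  (𝓕 : Set (Set Y)), 𝓕.Countable → (∀ F ∈ 𝓕, IsClosed F) →
  (∀ (y : Y) (O : Set Y), IsOpen O → y ∈ O → ∃ F ∈ 𝓕, y ∈ F ∧ F ⊆ O) →
  TopologicalSpace.MetrizableSpace Y

/-- Brick REC. -/
def t_REC : Prop := ∀ (L : Type u) [LinearOrder L] (Y : Type v) (f : L → Y),
  (∀ (I : Type) (a b : I → L), Uncountable I → (∀ i, a i ≤ b i) → (∀ i, f (a i) ≠ f (b i)) →
    (∀ e : L, {i | e ∈ Icc (a i) (b i)}.Countable) → False) →
  (∀ D : Set L, D.Countable →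
    ∃ p q r : L, p < q ∧ q < r ∧ Disjoint (Icc p r) D ∧ f p ≠ f q ∧ f q ≠ f r) → False

end K3h48.PS
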