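import Pool.Agent.K3h48.PS.NET
import Pool.Agent.K3h48.PS.MET
import Pool.Agent.K3h48.PS.KEY
import Pool.Agent.K3h48.PS.LP
import Pool.Agent.K3h58.PS.REC
import Pool.Agent.K3h36.PS.LEM

namespace K3h48.PS

open Set Topology

universe u v

/-- Closed intervals of a preconnected ordered space are preconnected. -/
theorem isPreconnected_Icc' (L : Type u) [LinearOrder L] [TopologicalSpace L] [OrderTopology L]
    [PreconnectedSpace L] (a b : L) (h : a ≤ b) : IsPreconnected (Icc a b) := by
  have h1 : Continuous (fun x => (projIcc a b h x : L)) :=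
    continuous_subtype_val.comp continuous_projIcc
  have h2 : range (fun x => (projIcc a b h x : L)) = Icc a b := by
    ext x
    constructor
    · rintro ⟨y, rfl⟩
      exact (projIcc a b h y).2
    · intro hx
      exact ⟨x, by simp [projIcc_of_mem h hx]⟩
  rw [← h2]
  exact isPreconnected_range h1

theorem final (L : Type u) [LinearOrder L] [TopologicalSpace L] [OrderTopology L]
    [CompactSpace L] [ConnectedSpace L]
    (Y : Type v) [TopologicalSpace Y] [T2Space Y]
    (f : L → Y) (hf : Continuous f) (hs : Function.Surjective f)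
    (hY : ∀ S : Set Y, IsPSpace S) : TopologicalSpace.MetrizableSpace Y := by
  classical
  have hcY : CompactSpace Y := by
    rw [← isCompact_univ_iff, ← hs.range_eq]
    exact isCompact_range hf
  obtain ⟨x₀⟩ : Nonempty L := inferInstance
  obtain ⟨lo, -, hlo⟩ := isCompact_univ.exists_isLeast (s := (univ : Set L)) ⟨x₀, trivial⟩
  obtain ⟨hi, -, hhi⟩ := isCompact_univ.exists_isGreatest (s := (univ : Set L)) ⟨x₀, trivial⟩
  by_cases hN : ∀ D : Set L, D.Countable →
      ∃ p q r : L, p < q ∧ q < r ∧ Disjoint (Icc p r) D ∧ f p ≠ f q ∧ f q ≠ f r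
  · exfalso
    refine Pool.Agent.K3h58.PS.rec L Y f ?_ hN
    intro I a b hI hab hfab hpc
    exact key lp K3h36.PS.lem L Y hY f hf I a b hI hab hfab hpc
  · push Not at hN
    obtain ⟨D, hD, hno⟩ := hN
    have hM : ∀ a b : L, a ≤ b → Disjoint (Icc a b) (D ∪ {lo, hi}) → f a = f b := by
      intro a b hab hdis
      by_contra hne
      obtain ⟨g, h0, h1, -⟩ := exists_continuous_zero_one_of_isClosed
        (isClosed_singleton (x := f a)) (isClosed_singleton (x := f b))
        (Set.disjoint_singleton.2 hne)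
      have hga : g (f a) = 0 := h0 rfl
      have hgb : g (f b) = 1 := h1 rfl
      have hmem : (1 / 2 : ℝ) ∈ (fun x => g (f x)) '' Icc a b := by
        have := (isPreconnected_Icc' L a b hab).intermediate_value (left_mem_Icc.2 hab)
          (right_mem_Icc.2 hab) (g.continuous.comp hf).continuousOn
        apply this
        show (1 / 2 : ℝ) ∈ Icc (g (f a)) (g (f b))
        rw [hga, hgb]
        constructor <;> norm_num
      obtain ⟨c, hc, hgc⟩ := hmem
      have hgc' : g (f c) = 1 / 2 := hgc
      have hac : f a ≠ f c := by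
        intro e
        rw [← e, hga] at hgc'
        norm_num at hgc'
      have hcb : f c ≠ f b := by
        intro e
        rw [e, hgb] at hgc'
        norm_num at hgc'
      have h1 : a < c := lt_of_le_of_ne hc.1 (fun e => hac (by rw [e]))
      have h2 : c < b := lt_of_le_of_ne hc.2 (fun e => hcb (by rw [e]))
      exact hcb (hno a c b h1 h2 (hdis.mono_right subset_union_left) hac)
    have hDc : (D ∪ {lo, hi}).Countable := hD.union ((Set.countable_singleton _).insert _)
    have hnet := net L Y f hf lo hi (fun x => hlo (mem_univ x)) (fun x => hhi (mem_univ x))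
      (D ∪ {lo, hi}) (Or.inr (Or.inl rfl)) (Or.inr (Or.inr rfl)) hM
    refine met Y ((fun p : L × L => f '' Icc p.1 p.2) '' ((D ∪ {lo, hi}) ×ˢ (D ∪ {lo, hi})))
      ((hDc.prod hDc).image _) ?_ ?_
    · rintro F ⟨p, -, rfl⟩
      exact (isClosed_Icc.isCompact.image hf).isClosed
    · intro y O hO hy
      obtain ⟨x, rfl⟩ := hs y
      obtain ⟨d, hd, d', hd', h1, h2, h3⟩ := hnet x O hO hy
      refine ⟨_, ⟨(d, d'), ⟨hd, hd'⟩, rfl⟩, ⟨x, ⟨h1, h2⟩, rfl⟩, ?_⟩
      rintro _ ⟨s, hs', rfl⟩
      exact h3 hs'

end K3h48.PS
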