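import Pool.Agent.K3h48.PS.Stm

namespace K3h48.PS

open Set Topology

universe u v

/-- A preconnected linearly ordered space is densely ordered. -/
theorem dense_of_preconnected (L : Type u) [LinearOrder L] [TopologicalSpace L] [OrderTopology L]
    [PreconnectedSpace L] (a b : L) (hab : a < b) : ∃ c, a < c ∧ c < b := by
  by_contra hc
  push Not at hc
  have h1 : Iio b = Iic a := by
    ext s
    constructor
    · intro hs
      by_contra h
      exact absurd hs (not_lt.2 (hc s (not_le.1 h)))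
    · intro hs
      exact lt_of_le_of_lt hs hab
  have h2 : IsClopen (Iio b) := ⟨h1 ▸ isClosed_Iic, isOpen_Iio⟩
  rcases isClopen_iff.1 h2 with h | h
  · have : a ∈ Iio b := hab
    rw [h] at this
    exact this
  · have : b ∈ Iio b := by rw [h]; trivial
    exact lt_irrefl _ this

theorem net_right (L : Type u) [LinearOrder L] [TopologicalSpace L] [OrderTopology L]
    [CompactSpace L] [PreconnectedSpace L]
    (Y : Type v) [TopologicalSpace Y] [T2Space Y] (f : L → Y) (hf : Continuous f)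
    (hi : L) (hhi : ∀ x, x ≤ hi) (D : Set L) (hD : hi ∈ D)
    (hM : ∀ a b : L, a ≤ b → Disjoint (Icc a b) D → f a = f b)
    (x : L) (O : Set Y) (hO : IsOpen O) (hx : f x ∈ O) :
    ∃ d' ∈ D, x ≤ d' ∧ Icc x d' ⊆ f ⁻¹' O := by
  classical
  set N : Set L := {s | x ≤ s ∧ f s ≠ f x} with hN
  have hcl : IsClosed (lowerBounds N) := by
    have : lowerBounds N = ⋂ s ∈ N, Iic s := by
      ext z; simp [lowerBounds]
    rw [this]
    exact isClosed_biInter fun s _ => isClosed_Iic
  have hK : IsCompact (Ici x ∩ lowerBounds N) :=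
    (isClosed_Ici.inter hcl).isCompact
  obtain ⟨t, ht⟩ := hK.exists_isGreatest ⟨x, le_refl x, fun s hs => hs.1⟩
  have hxt : x ≤ t := ht.1.1
  have h1 : ∀ s, x ≤ s → s < t → f s = f x := by
    intro s hxs hst
    by_contra h
    exact absurd (ht.1.2 (show s ∈ N from ⟨hxs, h⟩)) (not_le.2 hst)
  -- a general tool: `f t` for a one-sided limit
  have h2 : f t = f x := by
    by_contra h
    have hxt' : x < t := lt_of_le_of_ne hxt (fun e => h (by rw [e]))
    have hopen : f ⁻¹' {f x}ᶜ ∈ 𝓝 t := (isOpen_compl_singleton.preimage hf).mem_nhds h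
    obtain ⟨l, hl, hl'⟩ := exists_Ioc_subset_of_mem_nhds hopen ⟨x, hxt'⟩
    obtain ⟨c, hc1, hc2⟩ := dense_of_preconnected L (max l x) t (max_lt hl hxt')
    have : c ∈ f ⁻¹' {f x}ᶜ := hl' ⟨lt_of_le_of_lt (le_max_left _ _) hc1, hc2.le⟩
    exact this (h1 c (le_of_lt (lt_of_le_of_lt (le_max_right _ _) hc1)) hc2)
  have h3 : ∀ s, x ≤ s → s ≤ t → f s = f x := by
    intro s hxs hst
    rcases eq_or_lt_of_le hst with h | h
    · rw [h]; exact h2
    · exact h1 s hxs h
  rcases eq_or_lt_of_le (hhi t) with hth | hth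
  · refine ⟨hi, hD, hhi x, ?_⟩
    intro s hs
    have : f s = f x := h3 s hs.1 (hth ▸ hs.2)
    show f s ∈ O
    rw [this]; exact hx
  · have hnb : f ⁻¹' O ∈ 𝓝 t := (hO.preimage hf).mem_nhds (by show f t ∈ O; rw [h2]; exact hx)
    obtain ⟨m, hm, hm'⟩ := exists_Ico_subset_of_mem_nhds hnb ⟨hi, hth⟩
    by_cases hd : ∃ d ∈ D, t < d ∧ d < m
    · obtain ⟨d, hdD, htd, hdm⟩ := hd
      refine ⟨d, hdD, hxt.trans htd.le, ?_⟩
      intro s hs
      rcases le_total s t with h | h
      · show f s ∈ O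
        rw [h3 s hs.1 h]; exact hx
      · exact hm' ⟨h, lt_of_le_of_lt hs.2 hdm⟩
    · exfalso
      push Not at hd
      have h4 : ∀ a b, t < a → a ≤ b → b < m → f a = f b := by
        intro a b hta hab hbm
        refine hM a b hab ?_
        rw [Set.disjoint_left]
        intro d hd1 hd2
        exact absurd (lt_of_le_of_lt hd1.2 hbm) (not_lt.2 (hd d hd2 (lt_of_lt_of_le hta hd1.1)))
      have h5 : ∀ s, t < s → s < m → f s = f t := by
        intro s hts hsm
        by_contra h
        have hopen : f ⁻¹' {f s}ᶜ ∈ 𝓝 t :=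
          (isOpen_compl_singleton.preimage hf).mem_nhds (fun e => h (by rw [← mem_singleton_iff.1 e]))
        obtain ⟨l, hl, hl'⟩ := exists_Ico_subset_of_mem_nhds hopen ⟨hi, hth⟩
        obtain ⟨c, hc1, hc2⟩ := dense_of_preconnected L t (min l s) (lt_min hl hts)
        have : c ∈ f ⁻¹' {f s}ᶜ := hl' ⟨hc1.le, lt_of_lt_of_le hc2 (min_le_left _ _)⟩
        exact this (h4 c s hc1 (le_of_lt (lt_of_lt_of_le hc2 (min_le_right _ _))) hsm)
      obtain ⟨c, hc1, hc2⟩ := dense_of_preconnected L t m hm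
      have h6 : c ∈ Ici x ∩ lowerBounds N := by
        refine ⟨hxt.trans hc1.le, ?_⟩
        intro s hs
        by_contra h
        have hsc : s < c := not_le.1 h
        rcases le_or_gt s t with h' | h'
        · exact hs.2 (h3 s hs.1 h')
        · exact hs.2 ((h5 s h' (hsc.trans hc2)).trans h2)
      exact absurd (ht.2 h6) (not_le.2 hc1)

theorem net : t_NET.{u, v} := by
  intro L _ _ _ _ _ Y _ _ _ f hf lo hi hlo hhi D hloD hhiD hM x O hO hx
  obtain ⟨d', hd', hxd', hsub'⟩ := net_right L Y f hf hi hhi D hhiD hM x O hO hx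
  have : PreconnectedSpace Lᵒᵈ := ‹PreconnectedSpace L›
  have : CompactSpace Lᵒᵈ := ‹CompactSpace L›
  obtain ⟨d, hd, hxd, hsub⟩ := net_right Lᵒᵈ Y (f ∘ OrderDual.ofDual) (hf.comp continuous_ofDual)
    (OrderDual.toDual lo) (fun y => hlo (OrderDual.ofDual y)) (OrderDual.ofDual ⁻¹' D) hloD
    (by
      intro a b hab hdis
      refine (hM (OrderDual.ofDual b) (OrderDual.ofDual a) hab ?_).symm
      rw [Set.disjoint_left] at hdis ⊢
      intro c hc hcD
      exact hdis (a := OrderDual.toDual c) ⟨hc.2, hc.1⟩ hcD)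
    (OrderDual.toDual x) O hO hx
  refine ⟨OrderDual.ofDual d, hd, d', hd', hxd, hxd', ?_⟩
  intro s hs
  rcases le_total s x with h | h
  · exact hsub (a := OrderDual.toDual s) ⟨h, hs.1⟩
  · exact hsub' ⟨h, hs.2⟩

end K3h48.PS
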