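import Pool.Agent.K3h48.PS.Stm

namespace K3h48.PS

open Set Topology

universe u v

/-- The combinatorial consequence of being hereditarily a p-space. -/
theorem pa (hLP : t_LP.{u, v}) (Y : Type u) [TopologicalSpace Y] [CompactSpace Y] [T2Space Y]
    (hY : ∀ S : Set Y, IsPSpace S) (I : Type v) (hI : Uncountable I) (z b : I → Y)
    (hdis : Disjoint (range z) (range b))
    (hz : ∀ i, z i ∈ closure (range z)ᶜ) (hb : ∀ i, b i ∈ closure (range b)ᶜ)
    (hcl : ∀ I' : Set I, ¬ I'.Countable →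
      ∃ c, ∀ O : Set Y, IsOpen O → c ∈ O → ∃ i ∈ I', z i ∈ O ∧ b i ∈ O) : False := by
  classical
  rw [Set.disjoint_left] at hdis
  obtain ⟨N₁, hN₁⟩ := hLP Y (range b)ᶜ (hY _) I z b
    (fun i => fun h => hdis ⟨i, rfl⟩ h) hb (fun i h => h ⟨i, rfl⟩)
  obtain ⟨N₂, hN₂⟩ := hLP Y (range z)ᶜ (hY _) I b z
    (fun i => fun h => hdis h ⟨i, rfl⟩) hz (fun i h => h ⟨i, rfl⟩)
  have hex : ∃ p : ℕ × ℕ, ¬ {i : I | N₁ i = p.1 ∧ N₂ i = p.2}.Countable := by
    by_contra h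
    push Not at h
    have h1 : (⋃ p : ℕ × ℕ, {i : I | N₁ i = p.1 ∧ N₂ i = p.2}).Countable := countable_iUnion h
    have h2 : (⋃ p : ℕ × ℕ, {i : I | N₁ i = p.1 ∧ N₂ i = p.2}) = univ := by
      ext i
      simp
    rw [h2] at h1
    exact not_countable (Set.countable_univ_iff.1 h1)
  obtain ⟨p, hp⟩ := hex
  obtain ⟨c, hc⟩ := hcl _ hp
  have hcb : c ∈ range b := by
    by_contra h
    obtain ⟨O, hO, hcO, hO'⟩ := hN₁ p.1 c h
    obtain ⟨i, hi, h1, h2⟩ := hc O hO hcO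
    exact hO' i hi.1 ⟨h1, h2⟩
  have hcz : c ∈ range z := by
    by_contra h
    obtain ⟨O, hO, hcO, hO'⟩ := hN₂ p.2 c h
    obtain ⟨i, hi, h1, h2⟩ := hc O hO hcO
    exact hO' i hi.2 ⟨h2, h1⟩
  exact hdis hcz hcb

/-- Uncountable point-countable families of intervals in a compact ordered space cluster. -/
theorem cluster (L : Type u) [LinearOrder L] [TopologicalSpace L] [OrderTopology L]
    [CompactSpace L] (I : Type v) (a b : I → L) (hab : ∀ i, a i ≤ b i)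
    (hpc : ∀ e : L, {i | e ∈ Icc (a i) (b i)}.Countable)
    (I' : Set I) (hI' : ¬ I'.Countable) :
    ∃ p : L, ∀ O : Set L, IsOpen O → p ∈ O → ∃ i ∈ I', Icc (a i) (b i) ⊆ O := by
  classical
  by_contra hcon
  push Not at hcon
  choose O hO hpO hno using hcon
  have h1 : ∀ p : L, ∃ l r : L, p ∈ Icc l r ∧ Icc l r ∈ 𝓝 p ∧ Icc l r ⊆ O p := fun p =>
    exists_Icc_mem_subset_of_mem_nhds ((hO p).mem_nhds (hpO p))
  choose l r hlr hnb hsub using h1
  obtain ⟨T, -, hT⟩ := isCompact_univ.elim_nhds_subcover (fun p => Icc (l p) (r p))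
    (fun p _ => hnb p)
  have h2 : I' ⊆ ⋃ p ∈ T, {i | r p ∈ Icc (a i) (b i)} := by
    intro i hi
    obtain ⟨p, hp, hap⟩ := mem_iUnion₂.1 (hT (mem_univ (a i)))
    refine mem_iUnion₂.2 ⟨p, hp, hap.2, ?_⟩
    by_contra h
    refine hno p i hi (fun s hs => hsub p ⟨hap.1.trans hs.1, hs.2.trans (not_le.1 h).le⟩)
  refine hI' (Set.Countable.mono h2 ?_)
  exact T.countable_toSet.biUnion (fun p _ => hpc (r p))

end K3h48.PS
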